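import Pool.Agent.OPl.Rich

/-!
# Ordinary planes of sets with a rich plane

Let `S` be a set of `n` points in real `3`-space, no three collinear, and let a plane contain exactly
`m < n` points of `S`, `r = n - m`. Then `S` has at least `r (m choose 2) - r (r - 1) ⌊m / 2⌋` ordinary planes. In
particular the conjectured bound `n ^ 2 / 4 - n` holds whenever some plane contains at least
`n / 2 + 1` points of `S`, and also if it contains `(n + 1) / 2` points and this number is odd.

Proof. Let `q` be a point outside the plane and `x, y` points of `S` in the plane. The plane `x y q` contains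
no third point of `S` in the given plane, so it is ordinary unless it contains another point `q'` outside. For
given `q, q'` the lines `x y` with this property all pass through one point (the intersection of `q q'` with
the plane, possibly at infinity), so they are at most `⌊m / 2⌋` in number.
-/

set_option autoImplicit false

namespace Pool.Agent.Results.MP_f1cd07_co.RichPlane

open Classical in
/-- The main result. The plane is `{x | ⟪u, x⟫ = c}`, `u ≠ 0`. The ordinary planes are counted as the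
`3`-subsets `T` of `S` whose span contains no point of `S` outside `T`. -/
theorem result (S : Finset (EuclideanSpace ℝ (Fin 3)))
    (h3 : ∀ T ⊆ S, T.card = 3 → ¬ Collinear ℝ (T : Set (EuclideanSpace ℝ (Fin 3))))
    (u : EuclideanSpace ℝ (Fin 3)) (_hu : u ≠ 0) (c : ℝ)
    (m n : ℕ) (hm : m = (S.filter fun x => inner ℝ u x = c).card) (hn : n = S.card) (hmn : m < n)
    (t : ℝ)
    (ht : t = (((S.powersetCard 3).filter (fun T : Finset (EuclideanSpace ℝ (Fin 3)) =>
      ∀ p ∈ S, p ∈ affineSpan ℝ (T : Set (EuclideanSpace ℝ (Fin 3))) → p ∈ T)).card : ℝ)) :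
    ((n - m : ℝ) * (m * (m - 1) / 2) - (n - m : ℝ) * (n - m - 1) * ((m / 2 : ℕ) : ℝ) ≤ t) ∧
    ((n + 2 ≤ 2 * m ∨ (n + 1 = 2 * m ∧ m % 2 = 1)) → (n : ℝ) ^ 2 / 4 - n ≤ t) := by
  have e : ((S.powersetCard 3).filter (fun T : Finset (EuclideanSpace ℝ (Fin 3)) =>
      ∀ p ∈ S, p ∈ affineSpan ℝ (T : Set (EuclideanSpace ℝ (Fin 3))) → p ∈ T)) =
      Pool.Agent.OPl.ords S := by
    ext T
    unfold Pool.Agent.OPl.ords Pool.Agent.OPl.Ord
    simp only [Finset.mem_filter]
  have h := Pool.Agent.OPl.rich S h3 u c _ _ rfl rfl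
  have eA : (S.filter fun x => Pool.Agent.OPl.aff u c x = 0) =
      S.filter fun x => inner ℝ u x = c := by
    ext x
    simp only [Finset.mem_filter, Pool.Agent.OPl.aff, sub_eq_zero]
  have eB : (S.filter fun x => Pool.Agent.OPl.aff u c x ≠ 0).card = n - m := by
    have h1 : (S.filter fun x => Pool.Agent.OPl.aff u c x ≠ 0) =
        S \ S.filter fun x => inner ℝ u x = c := by
      ext x
      simp only [Finset.mem_filter, Finset.mem_sdiff, Pool.Agent.OPl.aff, ne_eq, sub_eq_zero]
      tauto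
    rw [h1, Finset.card_sdiff_of_subset (Finset.filter_subset _ _), ← hm, ← hn]
  rw [eA, ← hm, eB, ← e] at h
  obtain ⟨r, hr⟩ : ∃ r, n = m + r := ⟨n - m, by omega⟩
  have hr1 : 1 ≤ r := by omega
  have hnm : n - m = r := by omega
  rw [hnm] at h
  have hR : (m : ℝ) * (m - 1) * r ≤ 2 * t + r * (r - 1) * (2 * ((m / 2 : ℕ) : ℝ)) := by
    rcases Nat.eq_zero_or_pos m with h0 | h0
    · subst h0
      have ht0 : 0 ≤ t := by rw [ht]; exact Nat.cast_nonneg _
      have h00 : ((0 / 2 : ℕ) : ℝ) = 0 := by norm_num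
      rw [h00]
      ring_nf
      linarith
    · generalize ((S.powersetCard 3).filter (fun T : Finset (EuclideanSpace ℝ (Fin 3)) =>
        ∀ p ∈ S, p ∈ affineSpan ℝ (T : Set (EuclideanSpace ℝ (Fin 3))) → p ∈ T)).card = N at h ht
      generalize m / 2 = k at h ⊢
      have h' : ((m * (m - 1) * r : ℕ) : ℝ) ≤ ((2 * N + r * (r - 1) * (2 * k) : ℕ) : ℝ) :=
        Nat.cast_le.2 h
      rw [Nat.cast_mul, Nat.cast_mul, Nat.cast_add, Nat.cast_mul, Nat.cast_mul, Nat.cast_mul,
        Nat.cast_mul, Nat.cast_pred h0, Nat.cast_pred hr1, ← ht, Nat.cast_ofNat] at h'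
      exact h'
  have hnr : (n : ℝ) = m + r := by rw [hr]; push_cast; ring
  have h1 : (n - m : ℝ) * (m * (m - 1) / 2) - (n - m : ℝ) * (n - m - 1) * ((m / 2 : ℕ) : ℝ) ≤ t := by
    rw [hnr]
    nlinarith [hR]
  refine ⟨h1, ?_⟩
  intro hcase
  have hrR : (1 : ℝ) ≤ r := by exact_mod_cast hr1
  rcases Nat.even_or_odd' m with ⟨k, hk | hk⟩
  · -- `m` even
    have hfl : ((m / 2 : ℕ) : ℝ) = m / 2 := by
      have : m / 2 = k := by omega
      rw [this, hk]; push_cast; ring
    obtain ⟨d, hd⟩ : ∃ d, m = r + 2 + d := by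
      rcases hcase with h' | h'
      · exact ⟨m - (r + 2), by omega⟩
      · omega
    have hmR : (m : ℝ) = r + 2 + d := by rw [hd]; push_cast; ring
    have hd0 : (0 : ℝ) ≤ d := Nat.cast_nonneg _
    rw [hfl] at hR
    rw [hnr]
    rw [hmR] at hR ⊢
    have q1 : (0 : ℝ) ≤ r * d := by positivity
    have q2 : (0 : ℝ) ≤ (r - 1) * d := mul_nonneg (by linarith) hd0
    have q3 : (0 : ℝ) ≤ r * d ^ 2 := by positivity
    have q4 : (0 : ℝ) ≤ (r - 1) * d ^ 2 := mul_nonneg (by linarith) (by positivity)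
    have q5 : (0 : ℝ) ≤ r ^ 2 * d := by positivity
    nlinarith
  · -- `m` odd
    have hfl : ((m / 2 : ℕ) : ℝ) = (m - 1) / 2 := by
      have : m / 2 = k := by omega
      rw [this, hk]; push_cast; ring
    obtain ⟨d, hd⟩ : ∃ d, m = r + 1 + d := by
      rcases hcase with h' | h'
      · exact ⟨m - (r + 1), by omega⟩
      · exact ⟨0, by omega⟩
    have hmR : (m : ℝ) = r + 1 + d := by rw [hd]; push_cast; ring
    have hd0 : (0 : ℝ) ≤ d := Nat.cast_nonneg _
    rw [hfl] at hR
    rw [hnr]
    rw [hmR] at hR ⊢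
    have q1 : (0 : ℝ) ≤ r * d := by positivity
    have q2 : (0 : ℝ) ≤ (r - 1) * d := mul_nonneg (by linarith) hd0
    have q3 : (0 : ℝ) ≤ r * d ^ 2 := by positivity
    have q4 : (0 : ℝ) ≤ (r - 1) * d ^ 2 := mul_nonneg (by linarith) (by positivity)
    have q5 : (0 : ℝ) ≤ r ^ 2 * d := by positivity
    nlinarith

end Pool.Agent.Results.MP_f1cd07_co.RichPlane
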