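import Pool.Agent.OPl.Cnt

/-!
# Ordinary planes of sets contained in two planes

Let `S` be a set of `n` points in real `3`-space, no three collinear, not all coplanar, and contained in
the union of two planes. Then the number of ordinary planes of `S` (planes with exactly three points of
`S`) is at least

* `n ^ 2 / 4 - n` if `n ≡ 0 (mod 4)`,
* `3 n ^ 2 / 8 - n + 5 / 8` if `n ≡ 1 (mod 4)`,
* `n ^ 2 / 4 - n / 2` if `n ≡ 2 (mod 4)`,
* `3 n ^ 2 / 8 - 3 n / 2 + 17 / 8` if `n ≡ 3 (mod 4)`.

These are the values of `e_3(n)` for all sufficiently large `n`, attained by prisms and antiprisms over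
regular polygons (and these without a vertex), which are contained in two planes; so the bound is sharp
for sets in two planes.

Proof. Let `A` (`B`) be the points of the first (second) plane which are not on the other plane, `C` the
at most two common points. In homogeneous coordinates the points of `A` and of `B` are scaled such that
the differences of points of `A` and of points of `B` are in one two dimensional space; then `x, y` in `A`
and `b, b'` in `B` are coplanar iff `x - y` is parallel to `b - b'`. A direction is parallel to at most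
`|A| / 2` pairs of `A`, and if `|A|` is even at most `|A| / 2` directions are parallel to exactly `|A| / 2` pairs:
seen from an extreme point `p` the points `q` with such a direction `q - p` have an even number of points
on each side of the line `p q`. This bounds the number of coplanar quadruples, and the rest is counting.
-/

set_option autoImplicit false

namespace Pool.Agent.Results.MP_f1cd07_co.TwoPlanes

open Classical in
/-- The main result. The ordinary planes are counted as the `3`-subsets `T` of `S` whose span contains no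
point of `S` outside `T`. -/
theorem result (S : Finset (EuclideanSpace ℝ (Fin 3)))
    (hS : ¬ Coplanar ℝ (S : Set (EuclideanSpace ℝ (Fin 3))))
    (h3 : ∀ T ⊆ S, T.card = 3 → ¬ Collinear ℝ (T : Set (EuclideanSpace ℝ (Fin 3))))
    (U V : Set (EuclideanSpace ℝ (Fin 3))) (hU : Coplanar ℝ U) (hV : Coplanar ℝ V)
    (hUV : (S : Set (EuclideanSpace ℝ (Fin 3))) ⊆ U ∪ V)
    (n : ℕ) (hn : n = S.card) (t : ℝ)
    (ht : t = (((S.powersetCard 3).filter (fun T : Finset (EuclideanSpace ℝ (Fin 3)) =>
      ∀ p ∈ S, p ∈ affineSpan ℝ (T : Set (EuclideanSpace ℝ (Fin 3))) → p ∈ T)).card : ℝ)) :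
    (n % 4 = 0 → (n : ℝ) ^ 2 / 4 - n ≤ t) ∧
    (n % 4 = 1 → 3 * (n : ℝ) ^ 2 / 8 - n + 5 / 8 ≤ t) ∧
    (n % 4 = 2 → (n : ℝ) ^ 2 / 4 - (n : ℝ) / 2 ≤ t) ∧
    (n % 4 = 3 → 3 * (n : ℝ) ^ 2 / 8 - 3 * (n : ℝ) / 2 + 17 / 8 ≤ t) := by
  have h := Pool.Agent.OPl.main S hS h3 U V hU hV hUV
  have e : ((S.powersetCard 3).filter (fun T : Finset (EuclideanSpace ℝ (Fin 3)) =>
      ∀ p ∈ S, p ∈ affineSpan ℝ (T : Set (EuclideanSpace ℝ (Fin 3))) → p ∈ T)) =
      Pool.Agent.OPl.ords S := by
    ext T
    unfold Pool.Agent.OPl.ords Pool.Agent.OPl.Ord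
    simp only [Finset.mem_filter]
  rw [ht, e, hn]
  exact h

end Pool.Agent.Results.MP_f1cd07_co.TwoPlanes
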